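import Pool.Agent.H.MP_f44585_an.A

set_option autoImplicit false
open Finset Filter Topology MeasureTheory Polynomial Metric
open Pool.Agent.H.MP_f44585_an

namespace Pool.Agent.H.MP_58ffb3_an

lemma hf (k : ℤ) (t : ℝ) : fourier k (t : AddCircle (1 : ℝ)) = ee (k * t) := by
  rw [fourier_coe_apply, ee]; congr 1; push_cast; ring

theorem weylc {u : ℕ → ℝ}
    (h : ∀ k : ℕ, 1 ≤ k → Tendsto (fun N : ℕ => (∑ n ∈ range N, ee (k * u n)) / N) atTop (𝓝 0))
    (f : C(AddCircle (1 : ℝ), ℂ)) : Tendsto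
      (fun N : ℕ => (∑ n ∈ range N, f (u n)) / N) atTop (𝓝 (∫ x, f x)) := by
  have mem : f ∈ closure (Submodule.span ℂ (Set.range (fourier (T := 1))) : Set _) := by
    rw [← Submodule.topologicalClosure_coe, span_fourier_closure_eq_top]; trivial
  have int (f : C(AddCircle (1 : ℝ), ℂ)) : Integrable f :=
    f.continuous.integrable_of_hasCompactSupport (HasCompactSupport.of_compactSpace f)
  have base : ∀ g ∈ Submodule.span ℂ (Set.range (fourier (T := 1))), Tendsto
      (fun N : ℕ => (∑ n ∈ range N, g (u n)) / N) atTop (𝓝 (∫ x, g x)) := by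
    intro g hg
    induction hg using Submodule.span_induction with
    | mem g hg =>
      obtain ⟨k, rfl⟩ := hg
      have e := congrFun (fourierCoeff_fourier (T := 1) k) 0
      rw [fourierCoeff, AddCircle.integral_haarAddCircle] at e
      simp only [neg_zero, fourier_zero, one_smul, inv_one] at e
      rw [e]
      rcases lt_trichotomy k 0 with hk | rfl | hk
      · obtain ⟨l, rfl⟩ := Int.exists_eq_neg_ofNat hk.le
        have := (Complex.continuous_conj.tendsto _).comp (h l (by omega))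
        simp only [hf]
        simpa [Function.comp_def, ee_conj, hk.ne'] using this
      · simp only [fourier_zero, sum_const, card_range, nsmul_eq_mul, mul_one, Pi.single_eq_same]
        refine tendsto_const_nhds.congr' ((eventually_ne_atTop 0).mono fun N hN => ?_)
        exact (div_self (by exact_mod_cast hN)).symm
      · obtain ⟨l, rfl⟩ := Int.eq_ofNat_of_zero_le hk.le
        simp only [hf]
        simpa [hk.ne] using h l (by omega)
    | zero => simp
    | add f g _ _ h1 h2 =>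
      simpa [sum_add_distrib, add_div, integral_add (int f) (int g)] using h1.add h2
    | smul c f _ h1 =>
      simpa [← mul_sum, mul_div_assoc, integral_const_mul] using h1.const_mul c
  rw [Metric.tendsto_atTop]
  intro ε hε
  obtain ⟨g, hg, hd⟩ := Metric.mem_closure_iff.1 mem (ε / 3) (by positivity)
  obtain ⟨N, hN⟩ := Metric.tendsto_atTop.1 (base g hg) (ε / 3) (by positivity)
  refine ⟨N, fun n hn => ?_⟩
  have b1 : dist ((∑ i ∈ range n, f (u i)) / n) ((∑ i ∈ range n, g (u i)) / n) ≤ dist f g := by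
    rw [dist_eq_norm, ← sub_div, ← sum_sub_distrib, norm_div, Complex.norm_natCast]
    refine div_le_of_le_mul₀ (by positivity) dist_nonneg ((norm_sum_le_of_le _
      (n := fun _ => dist f g) fun i _ => ?_).trans (by simp [mul_comm]))
    rw [← dist_eq_norm]; exact ContinuousMap.dist_apply_le_dist _
  have b2 : dist (∫ x, g x) (∫ x, f x) ≤ dist f g := by
    rw [dist_comm, dist_eq_norm, ← integral_sub (int f) (int g)]
    refine (norm_integral_le_of_norm_le_const (C := dist f g) (ae_of_all _ fun x => ?_)).trans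
      (by simp [Measure.real])
    rw [← dist_eq_norm]; exact ContinuousMap.dist_apply_le_dist _
  linarith [dist_triangle4 ((∑ i ∈ range n, f (u i)) / n) ((∑ i ∈ range n, g (u i)) / n)
    (∫ x, g x) (∫ x, f x), hN n hn]

noncomputable def x (j : ℕ) : ℂ := ee (j * √2)

lemma ne_one {k : ℤ} (hk : k ≠ 0) : ee (k * √2) ≠ 1 := fun h => by
  obtain ⟨n, hn⟩ := ee_one h
  exact (irrational_sqrt_two.intCast_mul hk).ne_int n hn

lemma x_inj : Function.Injective x := by
  intro i j h
  by_contra hh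
  refine ne_one (k := i - j) (by omega) ?_
  have h0 : ee (j * √2) ≠ 0 := fun e => by simpa [e] using ee_norm (j * √2)
  apply mul_right_cancel₀ h0
  rw [← ee_add, one_mul, ← x, ← h, x]
  congr 1; push_cast; ring

lemma x_norm (j : ℕ) : ‖x j‖ = 1 := ee_norm _

lemma equi {f : ℂ → ℝ} (hc : Continuous f) :
    Tendsto (fun N : ℕ => (∑ n ∈ range N, f (x n)) / N) atTop
      (𝓝 (∫ t in (0 : ℝ)..1, f (Complex.exp (2 * Real.pi * t * Complex.I)))) := by
  have := weylc (u := fun n => n * √2) (fun k hk => by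
    have h1 : ee (k * √2) ≠ 1 := by simpa using ne_one (k := k) (by omega)
    refine squeeze_zero_norm (a := fun N : ℕ => 2 / ‖ee (k * √2) - 1‖ / N) (fun N => ?_)
      (tendsto_const_div_atTop_nhds_zero_nat _)
    have : ∀ n : ℕ, ee (k * (n * √2)) = ee (k * √2) ^ n := fun n => by
      rw [← ee_nat]; congr 1; ring
    simp only [this]
    rw [geom_sum_eq h1, norm_div, norm_div, Complex.norm_natCast]
    gcongr
    refine (norm_sub_le _ _).trans ?_
    rw [norm_pow, ee_norm]; norm_num)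
    ⟨fun t => (f (fourier 1 t) : ℂ), by fun_prop⟩
  rw [← UnitAddCircle.intervalIntegral_preimage 0] at this
  simp only [ContinuousMap.coe_mk, hf, intervalIntegral.integral_ofReal, zero_add] at this
  have := (Complex.continuous_re.tendsto _).comp this
  rw [Complex.ofReal_re] at this
  refine (this.congr fun N => ?_).trans_eq ?_
  · simp only [Function.comp, x, Int.cast_one, one_mul]
    rw [← Complex.ofReal_sum, ← Complex.ofReal_natCast, ← Complex.ofReal_div, Complex.ofReal_re]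
  · congr 2
    ext t
    rw [ee]; congr 2; push_cast; ring

lemma lag (k : ℕ) : ∃ L : ℝ, 1 ≤ L ∧ ∀ p : ℂ[X], p.natDegree ≤ k → ∀ z : ℂ, ‖z‖ ≤ 1 →
    ‖p.eval z‖ ^ 2 ≤ L * ∑ j ∈ range (k + 1), ‖p.eval (x j)‖ ^ 2 := by
  obtain ⟨M, hM⟩ := (isCompact_closedBall (0 : ℂ) 1).exists_bound_of_continuousOn
    (f := fun z => ∑ j ∈ range (k + 1), ‖(Lagrange.basis (range (k + 1)) x j).eval z‖ ^ 2)
    (Continuous.continuousOn (by fun_prop))
  refine ⟨max 1 M, le_max_left _ _, fun p hp z hz => ?_⟩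
  have e := Lagrange.eq_interpolate (s := range (k + 1)) (v := x) (f := p) x_inj.injOn
    (by rw [card_range]; exact degree_le_natDegree.trans_lt (by exact_mod_cast by omega))
  have h1 : ‖p.eval z‖ ≤ ∑ j ∈ range (k + 1),
      ‖(Lagrange.basis (range (k + 1)) x j).eval z‖ * ‖p.eval (x j)‖ := by
    conv_lhs => rw [e, Lagrange.interpolate_apply, eval_finsetSum]
    refine norm_sum_le_of_le _ fun j _ => ?_
    simp [mul_comm]
  refine (pow_le_pow_left₀ (norm_nonneg _) h1 2).trans ((sum_mul_sq_le_sq_mul_sq _ _ _).trans ?_)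
  gcongr
  exact (le_abs_self _).trans ((hM z (mem_closedBall_zero_iff.2 hz)).trans (le_max_right _ _))

noncomputable def L (k : ℕ) : ℝ := (lag k).choose

noncomputable def a : ℕ → ℝ
  | 0 => 1
  | k + 1 => a k / (100 * L k)

lemma L1 (k : ℕ) : 1 ≤ L k := (lag k).choose_spec.1

lemma a_pos (k : ℕ) : 0 < a k := by
  induction k with
  | zero => exact one_pos
  | succ k ih => have := L1 k; rw [a]; positivity

lemma a_le (k j : ℕ) : a (j + k) ≤ a k * (1 / 100) ^ j := by
  induction j with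
  | zero => simp
  | succ j ih =>
    rw [add_right_comm, a, pow_succ, ← mul_assoc, div_le_iff₀ (by have := L1 (j + k); positivity)]
    have := L1 (j + k)
    have h := a_pos k
    have : 0 ≤ a k * (1 / 100) ^ j := by positivity
    nlinarith

lemma a_le2 (k j : ℕ) : a (j + k) ≤ a k * (1 / 2) ^ j :=
  (a_le k j).trans (by have := a_pos k; gcongr; norm_num)

noncomputable def nu : Measure ℂ := Measure.sum fun j => ENNReal.ofReal (a j) • .dirac (x j)

lemma hs {E : Type} [NormedAddCommGroup E] [NormedSpace ℝ E] [CompleteSpace E] {f : ℂ → E}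
    (hc : Continuous f) : Integrable f nu ∧ HasSum (fun j => a j • f (x j)) (∫ z, f z ∂nu) := by
  obtain ⟨M, hM⟩ := (isCompact_closedBall (0 : ℂ) 1).exists_bound_of_continuousOn hc.continuousOn
  have : Summable fun i => (ENNReal.ofReal (a i)).toReal * ‖f (x i)‖ := by
    refine Summable.of_nonneg_of_le (fun _ => by positivity) (fun j => ?_)
      (summable_geometric_two.mul_right M)
    rw [ENNReal.toReal_ofReal (a_pos j).le]
    have := a_le2 0 j
    rw [add_zero, a, one_mul] at this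
    exact mul_le_mul this (hM _ (by simp [x_norm])) (norm_nonneg _) (by positivity)
  refine ⟨integrable_sum_dirac (fun _ => ENNReal.ofReal_ne_top) this, ?_⟩
  simpa only [ENNReal.toReal_ofReal (a_pos _).le, nu] using
    hasSum_integral_sum_dirac (fun _ => ENNReal.ofReal_ne_top) this

lemma nu_fin : IsFiniteMeasure nu := by
  have := (hs (f := fun _ => (1 : ℝ)) continuous_const).1
  simpa [integrable_const_iff] using this

lemma nu_K : nu (closedBall 0 1)ᶜ = 0 := by
  rw [nu, Measure.sum_apply _ measurableSet_closedBall.compl]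
  simp [x_norm]

noncomputable def Nm (p : ℂ[X]) : ℝ := ∫ z, ‖p.eval z‖ ^ 2 ∂nu

lemma Nm_sum (p : ℂ[X]) : HasSum (fun j => a j * ‖p.eval (x j)‖ ^ 2) (Nm p) :=
  (hs (f := fun z => ‖p.eval z‖ ^ 2) (by fun_prop)).2

lemma Nm_ge (p : ℂ[X]) (j : ℕ) : a j * ‖p.eval (x j)‖ ^ 2 ≤ Nm p :=
  le_hasSum (Nm_sum p) j fun i _ => by have := a_pos i; positivity

lemma Nm_pos {p : ℂ[X]} (hp : p ≠ 0) : 0 < Nm p := by
  by_contra h
  refine hp (eq_zero_of_infinite_isRoot p ((Set.infinite_range_of_injective x_inj).mono ?_))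
  rintro _ ⟨j, rfl⟩
  have h1 := (Nm_ge p j).trans (not_lt.1 h)
  have h2 := a_pos j
  have : ‖p.eval (x j)‖ ^ 2 ≤ 0 := by
    by_contra hh
    nlinarith
  simpa using this

lemma Nm_L (k : ℕ) (p : ℂ[X]) (hp : p.natDegree ≤ k) (z : ℂ) (hz : ‖z‖ ≤ 1) :
    a k * ‖p.eval z‖ ^ 2 ≤ L k * Nm p := by
  have h1 := (lag k).choose_spec.2 p hp z hz
  have h2 : a k * ∑ j ∈ range (k + 1), ‖p.eval (x j)‖ ^ 2 ≤ Nm p := by
    refine le_trans ?_ (sum_le_hasSum (range (k + 1))
      (fun i _ => by have := a_pos i; positivity) (Nm_sum p))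
    rw [mul_sum]
    refine sum_le_sum fun j hj => ?_
    obtain ⟨i, rfl⟩ := Nat.exists_eq_add_of_le' (Nat.lt_succ_iff.1 (mem_range.1 hj))
    have := (a_le2 j i).trans (mul_le_of_le_one_right (a_pos j).le
      (pow_le_one₀ (by norm_num) (by norm_num)))
    gcongr
  have := L1 k
  have := a_pos k
  calc _ ≤ a k * (L k * ∑ j ∈ range (k + 1), ‖p.eval (x j)‖ ^ 2) := by gcongr; exact h1
    _ = L k * (a k * ∑ j ∈ range (k + 1), ‖p.eval (x j)‖ ^ 2) := by ring
    _ ≤ _ := by gcongr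

lemma tail {w f : ℕ → ℝ} {n : ℕ} {M S : ℝ} (h0 : ∀ j, 0 ≤ w j) (h1 : ∀ j, w j ≤ 1)
    (h2 : HasSum w n) (h3 : ∀ j, w (j + n) ≤ 1 / 2 / 2 ^ j) (h4 : ∀ j, |f j| ≤ M)
    (h5 : HasSum (fun j => w j * f j) S) : |S - ∑ j ∈ range n, f j| ≤ 2 * M := by
  have M0 : 0 ≤ M := (abs_nonneg _).trans (h4 0)
  have a1 := (hasSum_nat_add_iff' n).2 h2
  have a2 := (hasSum_nat_add_iff' n).2 h5
  have b1 : n - ∑ j ∈ range n, w j ≤ 1 := hasSum_le h3 a1 (hasSum_geometric_two' 1)
  have b2 : |S - ∑ j ∈ range n, w j * f j| ≤ (n - ∑ j ∈ range n, w j) * M :=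
    a2.norm_le_of_bounded (a1.mul_right M) fun j => by
      rw [Real.norm_eq_abs, abs_mul, abs_of_nonneg (h0 _)]
      exact mul_le_mul_of_nonneg_left (h4 _) (h0 _)
  have b3 : |∑ j ∈ range n, w j * f j - ∑ j ∈ range n, f j| ≤ (n - ∑ j ∈ range n, w j) * M := by
    rw [← sum_sub_distrib]
    refine (abs_sum_le_sum_abs _ _).trans ((sum_le_sum (g := fun j => (1 - w j) * M)
      fun j _ => ?_).trans (le_of_eq ?_))
    · rw [show w j * f j - f j = -((1 - w j) * f j) by ring, abs_neg, abs_mul,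
        abs_of_nonneg (by linarith [h1 j])]
      exact mul_le_mul_of_nonneg_left (h4 _) (by linarith [h1 j])
    · rw [← sum_mul, sum_sub_distrib]; simp
  have := abs_sub_le S (∑ j ∈ range n, w j * f j) (∑ j ∈ range n, f j)
  nlinarith

variable {k : ℕ} {e : Fin (k + 1) → ℂ[X]}
  (ho : ∀ i j, ∫ z, (e i).eval z * starRingEnd ℂ ((e j).eval z) ∂nu = if i = j then 1 else 0)

include ho

lemma pars (c : Fin (k + 1) → ℂ) : Nm (∑ i, c i • e i) = ∑ i, ‖c i‖ ^ 2 := by
  apply Complex.ofReal_injective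
  rw [Nm, ← integral_complex_ofReal]
  have : ∀ z, ((‖(∑ i, c i • e i).eval z‖ ^ 2 : ℝ) : ℂ) = ∑ i, ∑ j,
      c i * starRingEnd ℂ (c j) * ((e i).eval z * starRingEnd ℂ ((e j).eval z)) := by
    intro z
    rw [← Complex.normSq_eq_norm_sq, ← Complex.mul_conj, eval_finsetSum, map_sum, sum_mul_sum]
    simp only [eval_smul, smul_eq_mul, map_mul]
    exact sum_congr rfl fun _ _ => sum_congr rfl fun _ _ => by ring
  simp only [this]
  rw [integral_finsetSum _ fun i _ => (hs (by fun_prop)).1]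
  push_cast
  refine sum_congr rfl fun i _ => ?_
  rw [integral_finsetSum _ fun j _ => (hs (by fun_prop)).1]
  simp only [integral_const_mul, ho]
  simp [Complex.mul_conj, Complex.normSq_eq_norm_sq]

lemma B_le (hd : ∀ i, (e i).natDegree ≤ k) {z : ℂ} {A C : ℝ} (hC : 0 ≤ C)
    (h : ∀ p : ℂ[X], p.natDegree ≤ k → A * ‖p.eval z‖ ^ 2 ≤ C * Nm p) :
    A * ∑ i, ‖(e i).eval z‖ ^ 2 ≤ C := by
  have h1 := h (∑ i, starRingEnd ℂ ((e i).eval z) • e i)
    (natDegree_sum_le_of_forall_le _ _ fun i _ => (natDegree_smul_le _ _).trans (hd i))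
  have h2 : (∑ i, starRingEnd ℂ ((e i).eval z) • e i).eval z =
      ((∑ i, ‖(e i).eval z‖ ^ 2 : ℝ) : ℂ) := by
    simp [eval_finsetSum, Complex.conj_mul']
  rw [pars ho, h2, Complex.norm_real] at h1
  simp only [Complex.norm_conj] at h1
  set B := ∑ i, ‖(e i).eval z‖ ^ 2
  have B0 : 0 ≤ B := by positivity
  rw [Real.norm_of_nonneg B0] at h1
  rcases B0.eq_or_lt with h | h
  · rw [← h, mul_zero]; exact hC
  · exact le_of_mul_le_mul_right (by nlinarith) h

lemma S_est (hd : ∀ i, (e i).natDegree ≤ k) {f : ℂ → ℝ} (hc : Continuous f) {M : ℝ}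
    (hM : ∀ j, |f (x j)| ≤ M) : |(∫ z, f z * ∑ i, ‖(e i).eval z‖ ^ 2 ∂nu) -
      ∑ j ∈ range (k + 1), f (x j)| ≤ 2 * M := by
  refine tail (w := fun j => a j * ∑ i, ‖(e i).eval (x j)‖ ^ 2)
    (fun j => by have := a_pos j; positivity)
    (fun j => B_le ho hd zero_le_one fun p _ => by rw [one_mul]; exact Nm_ge p j) ?_ (fun j => ?_)
    hM ?_
  · have h1 : ∀ i, Nm (e i) = 1 := fun i => by
      simpa [Pi.single_apply, ite_smul, apply_ite] using pars ho (Pi.single i 1)
    have := hasSum_sum (s := univ) fun i _ => Nm_sum (e i)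
    simpa [h1, mul_sum] using this
  · have h1 := B_le ho hd (zero_le_one.trans (L1 k)) fun p hp => Nm_L k p hp _ (x_norm (j + (k + 1))).le
    have h2 := a_le2 (k + 1) j
    rw [a] at h2
    have := L1 k
    have := a_pos k
    calc _ ≤ a k / (100 * L k) * (1 / 2) ^ j * ∑ i, ‖(e i).eval (x (j + (k + 1)))‖ ^ 2 := by
          gcongr
      _ = (a k * ∑ i, ‖(e i).eval (x (j + (k + 1)))‖ ^ 2) / (100 * L k) * (1 / 2) ^ j := by ring
      _ ≤ L k / (100 * L k) * (1 / 2) ^ j := by gcongr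
      _ = 1 / 100 / 2 ^ j := by rw [one_div_pow]; field_simp
      _ ≤ _ := by gcongr; norm_num
  · have := (hs (f := fun z => f z * ∑ i, ‖(e i).eval z‖ ^ 2) (by fun_prop)).2
    refine this.congr_fun fun j => ?_
    simp only [smul_eq_mul]; ring

lemma W_est (hsp : ∀ p : ℂ[X], p.natDegree ≤ k → p ∈ Submodule.span ℂ (Set.range e)) :
    25 ^ k ≤ 2 * ∑ i, ‖(e i).eval 0‖ ^ 2 := by
  set p : ℂ[X] := ∏ j ∈ range k, (X - C (x j)) with hp
  obtain ⟨c, hc⟩ := (Submodule.mem_span_range_iff_exists_fun ℂ).1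
    (hsp p (by rw [hp, natDegree_finsetProd_X_sub_C_eq_card]; simp))
  have h1 : ‖p.eval 0‖ = 1 := by simp [hp, eval_prod, x_norm]
  have h2 : ‖p.eval 0‖ ≤ ∑ i, ‖c i‖ * ‖(e i).eval 0‖ := by
    rw [← hc, eval_finsetSum]
    exact norm_sum_le_of_le _ fun i _ => by simp
  have h3 := (pow_le_pow_left₀ (norm_nonneg _) h2 2).trans (sum_mul_sq_le_sq_mul_sq _ _ _)
  rw [← pars ho, hc, h1] at h3
  have h4 : Nm p ≤ 2 * (a k * 4 ^ k) := by
    have b := (hasSum_nat_add_iff' k).2 (Nm_sum p)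
    rw [sum_eq_zero fun j hj => by
      rw [hp, eval_prod, prod_eq_zero hj (by simp)]; simp, sub_zero] at b
    refine hasSum_le (fun j => ?_) b (hasSum_geometric_two.mul_right _)
    have b1 : ‖p.eval (x (j + k))‖ ≤ 2 ^ k := by
      rw [hp, eval_prod, norm_prod]
      refine (prod_le_prod (g := fun _ => 2) (fun _ _ => norm_nonneg _) fun i _ => ?_).trans_eq
        (by simp)
      simp only [eval_sub, eval_X, eval_C]
      exact (norm_sub_le _ _).trans (by rw [x_norm, x_norm]; norm_num)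
    have b2 : ‖p.eval (x (j + k))‖ ^ 2 ≤ 4 ^ k := by
      rw [show (4 : ℝ) ^ k = (2 ^ k) ^ 2 by rw [← pow_mul, mul_comm, pow_mul]; norm_num]
      gcongr
    have := a_pos k
    calc _ ≤ a k * (1 / 2) ^ j * 4 ^ k := by gcongr; exact a_le2 k j
      _ = _ := by ring
  have h5 := a_le 0 k
  rw [add_zero, a, one_mul] at h5
  have h6 : a k * 4 ^ k * 25 ^ k ≤ 1 := by
    calc _ ≤ (1 / 100) ^ k * 4 ^ k * (25 : ℝ) ^ k := by gcongr
      _ = 1 := by rw [← mul_pow, ← mul_pow]; norm_num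
  set B := ∑ i, ‖(e i).eval 0‖ ^ 2
  have B0 : 0 ≤ B := by positivity
  have h7 : 1 ≤ 2 * (a k * 4 ^ k) * B := by nlinarith
  have h8 : (0 : ℝ) < 25 ^ k := by positivity
  nlinarith [mul_le_mul_of_nonneg_left h7 h8.le]

end Pool.Agent.H.MP_58ffb3_an
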