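import Pool.Agent.H.MP_58ffb3_an.A

set_option autoImplicit false
open Finset Filter Topology MeasureTheory Polynomial Metric

namespace Pool.Agent.H.MP_58ffb3_an

def V (k : ℕ) : Type := degreeLT ℂ (k + 1)

noncomputable instance (k : ℕ) : AddCommGroup (V k) :=
  inferInstanceAs (AddCommGroup (degreeLT ℂ (k + 1)))
noncomputable instance (k : ℕ) : Module ℂ (V k) := inferInstanceAs (Module ℂ (degreeLT ℂ (k + 1)))

noncomputable def vl (k : ℕ) : V k →ₗ[ℂ] ℂ[X] := (degreeLT ℂ (k + 1)).subtype

lemma self_in (p : ℂ[X]) : ∫ z, p.eval z * starRingEnd ℂ (p.eval z) ∂nu = (Nm p : ℂ) := by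
  rw [Nm, ← integral_complex_ofReal]
  simp only [Complex.mul_conj, Complex.normSq_eq_norm_sq]

@[reducible] noncomputable def core (k : ℕ) : InnerProductSpace.Core ℂ (V k) where
  inner p q := ∫ z, (vl k q).eval z * starRingEnd ℂ ((vl k p).eval z) ∂nu
  conj_inner_symm p q := by
    rw [← integral_conj]; simp [mul_comm]
  re_inner_nonneg p := by
    simp only [self_in]
    exact integral_nonneg fun z => by positivity
  add_left p q r := by
    simp only [map_add, eval_add, mul_add]
    exact integral_add (hs (by fun_prop)).1 (hs (by fun_prop)).1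
  smul_left p q c := by
    simp only [map_smul, eval_smul, smul_eq_mul, map_mul, ← integral_const_mul]
    congr 1; ext z; ring
  definite p h := by
    by_contra hp
    have := Nm_pos (p := vl k p) fun e => hp (Subtype.ext e)
    simp only [self_in] at h
    exact this.ne' (by exact_mod_cast h)

theorem onb (k : ℕ) : ∃ e : Fin (k + 1) → ℂ[X], (∀ i, (e i).natDegree ≤ k) ∧
    (∀ p : ℂ[X], p.natDegree ≤ k → p ∈ Submodule.span ℂ (Set.range e)) ∧
    ∀ i j, ∫ z, (e i).eval z * starRingEnd ℂ ((e j).eval z) ∂nu = if i = j then 1 else 0 := by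
  let : InnerProductSpace.Core ℂ (V k) := core k
  let : NormedAddCommGroup (V k) := InnerProductSpace.Core.toNormedAddCommGroup (𝕜 := ℂ)
  let : InnerProductSpace ℂ (V k) := InnerProductSpace.ofCore (core k).toCore
  have E : V k ≃ₗ[ℂ] (Fin (k + 1) → ℂ) := degreeLTEquiv ℂ (k + 1)
  have : FiniteDimensional ℂ (V k) := E.symm.finiteDimensional
  have hr : Module.finrank ℂ (V k) = k + 1 := by rw [E.finrank_eq]; simp
  set b := (stdOrthonormalBasis ℂ (V k)).reindex (finCongr hr)
  refine ⟨fun i => vl k (b i), fun i => ?_, fun p hp => ?_, fun i j => ?_⟩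
  · have : (vl k (b i)).degree < (k + 1 : ℕ) := mem_degreeLT.1 (b i).2
    exact natDegree_le_of_degree_le (Order.le_of_lt_succ (by exact_mod_cast this))
  · have hp' : p ∈ degreeLT ℂ (k + 1) :=
      mem_degreeLT.2 (degree_le_natDegree.trans_lt (by exact_mod_cast by omega))
    have := congrArg (vl k) (b.sum_repr ⟨p, hp'⟩)
    rw [map_sum] at this
    exact (Submodule.mem_span_range_iff_exists_fun ℂ).2 ⟨_, by simp only [map_smul] at this; exact this⟩
  · have := orthonormal_iff_ite.1 b.orthonormal j i
    rw [if_congr eq_comm rfl rfl]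
    exact this

end Pool.Agent.H.MP_58ffb3_an
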